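import Pool.Agent.Helper34_ACX.Num
import Pool.Agent.Helper22_ACX.Scl2

/-!
# ACX, row P8: all numeric hypotheses of the protocol
-/

set_option autoImplicit false

open Finset

open scoped NNReal BigOperators

noncomputable section

namespace Pool.Agent.ACX.H34

open Pool.Agent.AND2B Pool.Agent.ANP

/-- the numeric hypotheses of `ACX.Prt2Stmt` for `Gt d μ J N l r` -/
structure Num8 (d : ℕ) (th : ℝ≥0) (J : ℕ) (β : ℝ) (w : ℝ≥0) (N μ : ℕ) (kk l r : ℕ → ℕ)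
    (ca cb : ℝ) (π c W : ℕ → ℝ) : Prop where
  coin : ∀ n, 2 * pf w th kk β N n *
    ((kk (n + 1) : ℝ) - kk n + ((Gt d μ J N l r).L n : ℝ) ^ d) ≤ π n
  coin1 : ∀ n, π n ≤ 1
  dens : ∀ n, 1 ≤ n → n < (Gt d μ J N l r).N →
    2 * (cl w th (kk ((Gt d μ J N l r).N + 1)) : ℝ) *
      (3 ^ d * (Gt d μ J N l r).J * (6 * (Gt d μ J N l r).L (n - 1) + 1) ^ d *
        (2 * (Gt d μ J N l r).ρ n + 1) ^ d) ≤ cl w th (kk (n + 1))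
  c0 : ∀ n, 0 ≤ c n
  cost : ∀ n, 1 ≤ n → n < N → ∀ rx : ℝ≥0,
    th * cl w th (kk n) ≤ rx + cl w th (kk (N + 1)) →
      0 < rx ∧ (ca + cb / Real.sqrt rx) / ((2 : ℝ) ^ μ) ^ d ≤ c n
  W0 : ∀ n, 0 ≤ W n
  wgt : ∀ n, 1 ≤ n → n < (Gt d μ J N l r).N → ∀ B,
    (((Gt d μ J N l r).nbh ((Gt d μ J N l r).enl (n - 1) {B} 2) ((Gt d μ J N l r).ρ n)).card : ℝ) *
      c n ≤ W (n - 1)
  W1 : 1 ≤ W ((Gt d μ J N l r).N - 1)
  W2 : 1 ≤ W (Gt d μ J N l r).N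
  W3 : 1 ≤ W ((Gt d μ J N l r).N + 1)
  sum : ∑ j ∈ Finset.range ((Gt d μ J N l r).N + 2), W j *
    ∑ B ∈ ({B | (Gt d μ J N l r).bl j B = B} : Finset (Fin d → ZMod (2 ^ μ))),
      H72.QQ (Gt d μ J N l r).ch (Gt d μ J N l r).J (fun i => π i.1) j B ≤ 1 / 16
  f4 : ∀ n ≤ N, (cl w th (kk (N + 1)) : ℝ) ≤ cl w th (kk n) / 4

/-- P8 from the scales -/
theorem num8 {d J : ℕ} {th : ℝ≥0} {c₁ C₁ β : ℝ} {α : ℕ} {w : ℝ≥0} {t : ℝ} {N μ : ℕ}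
    {kk l r Kn Dn : ℕ → ℕ} (hS : Scal d th c₁ C₁ α J β w t N μ kk l r Kn Dn)
    (hw : 0 < w) (hth : 1 / 2 ≤ th) (hth1 : th < 1) (hN : 1 ≤ N) (hc₁ : c₁ ≤ 1)
    (hα : 4 * d + 4 ≤ α) (ca cb : ℝ) (hca : 0 ≤ ca) (hcb : 0 ≤ cb)
    (hw1 : 2 * 3 ^ d * (w : ℝ) ≤ 1) (hw64 : (w : ℝ) ≤ 1 / 64)
    (hCw : 3 ^ d * (ca + 2 * cb) * (w : ℝ) ≤ 1 / 32)
    (hq : ∀ n ≤ N, ∀ B, H72.QQ (Gt d μ J N l r).ch J
      (fun i => 2 * pf w th kk β N i.1 *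
        ((kk (i.1 + 1) : ℝ) - kk i.1 + ((2 ^ l i.1 : ℕ) : ℝ) ^ d)) n B ≤
          sg w th kk (n + 1) ^ ((A0 d C₁ α : ℕ) : ℝ)) :
    Num8 d th J β w N μ kk l r ca cb (pic w th kk β N l d) (cst w th kk d μ (ca + 2 * cb))
      (H34.wgt w th kk d μ (ca + 2 * cb) N r) := by
  have hth0 : 0 < th := lt_of_lt_of_le (by norm_num) hth
  have hC : 0 ≤ ca + 2 * cb := by linarith
  have hq' : ∀ n ≤ N, ∀ B, H72.QQ (Gt d μ J N l r).ch J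
      (fun i => pic w th kk β N l d i.1) n B ≤ sg w th kk (n + 1) ^ (A0 d C₁ α) := by
    intro n hn B
    have h := hq n hn B
    rw [Real.rpow_natCast] at h
    exact h
  have hdens := dens (β := β) hS hw hth0 hth1 hw1 hw64 hα hc₁
  have hf4 : ∀ n ≤ N, (cl w th (kk (N + 1)) : ℝ) ≤ cl w th (kk n) / 4 := fun n hn =>
    f_le hS hw hth0 hth1 hw64 hα n hn
  refine
    { coin := fun n => le_rfl
      coin1 := pic_le hS hw hth0 hth1 hw64 _ hq'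
      dens := fun n hn1 hn => ?_
      c0 := cst_nonneg _ hC
      cost := fun n hn1 hn rx hrx => ?_
      W0 := wgt_nonneg _ hC
      wgt := fun n hn1 hn B => wgt_ok hS _ hC n hn1 hn B
      W1 := ?_
      W2 := ?_
      W3 := ?_
      sum := sum_le hS hw hth0 hth1 hw64 hα _ hC hCw _ le_rfl hq'
      f4 := hf4 }
  · refine le_trans (le_of_eq ?_) (hdens n hn1 hn)
    unfold sg
    show 2 * (cl w th (kk (N + 1)) : ℝ) * (3 ^ d * (J : ℝ) * (6 * ((2 ^ l (n - 1) : ℕ) : ℝ) + 1) ^ d *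
      (2 * ((2 ^ r n : ℕ) : ℝ) + 1) ^ d) = _
    push_cast
    ring
  · have h1 : (th : ℝ) * cl w th (kk n) ≤ rx + cl w th (kk (N + 1)) := by exact_mod_cast hrx
    have h2 := hf4 n (by omega)
    have h3 : (1 / 2 : ℝ) ≤ th := by exact_mod_cast hth
    have hs0 : (0 : ℝ) < cl w th (kk n) := s_pos hw hth0 n
    have hs1 : (cl w th (kk n) : ℝ) ≤ 1 := s_le1 hS hth1 hw64 n
    have h4 : (cl w th (kk n) : ℝ) / 4 ≤ rx := by nlinarith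
    have h5 : (0 : ℝ) < rx := by linarith
    refine ⟨by exact_mod_cast h5, ?_⟩
    have h6 : Real.sqrt (cl w th (kk n)) / 2 ≤ Real.sqrt rx := by
      have h7 : Real.sqrt (cl w th (kk n)) / 2 = Real.sqrt ((cl w th (kk n) : ℝ) / 4) := by
        rw [Real.sqrt_div hs0.le, show (4 : ℝ) = 2 ^ 2 by norm_num, Real.sqrt_sq (by norm_num)]
      rw [h7]
      exact Real.sqrt_le_sqrt h4
    have h8 : 0 < Real.sqrt (cl w th (kk n)) := Real.sqrt_pos.2 hs0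
    have h9 : Real.sqrt (cl w th (kk n)) ≤ 1 := Real.sqrt_le_one.2 hs1
    have h10 : cb / Real.sqrt rx ≤ 2 * cb / Real.sqrt (cl w th (kk n)) := by
      rw [div_le_div_iff₀ (Real.sqrt_pos.2 h5) h8]
      nlinarith
    have h11 : ca ≤ ca / Real.sqrt (cl w th (kk n)) := by
      rw [le_div_iff₀ h8]
      nlinarith
    have hM : (0 : ℝ) < ((2 : ℝ) ^ μ) ^ d := by positivity
    unfold cst sg
    calc (ca + cb / Real.sqrt rx) / ((2 : ℝ) ^ μ) ^ d ≤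
        (ca / Real.sqrt (cl w th (kk n)) + 2 * cb / Real.sqrt (cl w th (kk n))) /
          ((2 : ℝ) ^ μ) ^ d := by gcongr
      _ = (ca + 2 * cb) / (((2 : ℝ) ^ μ) ^ d * Real.sqrt (cl w th (kk n))) := by
          field_simp
  · show 1 ≤ H34.wgt w th kk d μ (ca + 2 * cb) N r (N - 1)
    unfold H34.wgt
    rw [if_neg (by omega)]
  · show 1 ≤ H34.wgt w th kk d μ (ca + 2 * cb) N r N
    unfold H34.wgt
    rw [if_neg (by omega)]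
  · show 1 ≤ H34.wgt w th kk d μ (ca + 2 * cb) N r (N + 1)
    unfold H34.wgt
    rw [if_neg (by omega)]

/-- P8: THE SCALES WITH THE NUMBERS OF THE PROTOCOL -/
theorem p8 (d : ℕ) (th : ℝ≥0) (c₁ : ℝ) (hd : 3 ≤ d) (hth : 1 / 2 ≤ th) (hth1 : th < 1)
    (hc₁ : 0 < c₁) (hc₁1 : c₁ ≤ 1) :
    ∃ (C₁ : ℝ) (α J : ℕ), 5 ≤ α ∧ ∀ β : ℝ, 0 < β → ∀ ca cb : ℝ, 0 ≤ ca → 0 ≤ cb →
    ∃ w₁ : ℝ, 0 < w₁ ∧ w₁ ≤ 1 ∧ ∀ (w : ℝ≥0) (t : ℝ) (M₀ : ℕ), 0 < w → (w : ℝ) ≤ w₁ → 0 < t →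
      ∃ (N μ : ℕ) (kk l r Kn Dn : ℕ → ℕ), 2 ≤ N ∧ M₀ ≤ 2 ^ μ ∧
        Scal d th c₁ C₁ α J β w t N μ kk l r Kn Dn ∧
        ∃ π c W : ℕ → ℝ, Num8 d th J β w N μ kk l r ca cb π c W := by
  obtain ⟨C₁, α, J, hα, h⟩ := H22.scl2 d th c₁ hd hth hth1 hc₁
  refine ⟨C₁, α, J, by omega, fun β hβ ca cb hca hcb => ?_⟩
  obtain ⟨w₁, hw₁, hw₁1, h⟩ := h β hβ ((A0 d C₁ α : ℕ) : ℝ)
  obtain ⟨w₂, hw₂⟩ : ∃ w₂ : ℝ, w₂ = 1 / (64 * 3 ^ d * (1 + (ca + 2 * cb))) := ⟨_, rfl⟩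
  have hC : 0 ≤ ca + 2 * cb := by linarith
  have hw₂0 : 0 < w₂ := by
    rw [hw₂]
    positivity
  have h3 : (1 : ℝ) ≤ 3 ^ d := one_le_pow₀ (by norm_num)
  refine ⟨min w₁ w₂, lt_min hw₁ hw₂0, (min_le_left _ _).trans hw₁1, fun w t M₀ hw hw1 ht => ?_⟩
  obtain ⟨N, μ, kk, l, r, Kn, Dn, hN, hM, hS, hq⟩ := h w t M₀ hw (hw1.trans (min_le_left _ _)) ht
  have hw0 : (0 : ℝ) < w := by exact_mod_cast hw
  have h5 : (w : ℝ) * (64 * 3 ^ d * (1 + (ca + 2 * cb))) ≤ 1 := by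
    have h6 := hw1.trans (min_le_right _ _)
    rwa [hw₂, le_div_iff₀ (by positivity)] at h6
  have h7 : 0 ≤ (w : ℝ) * 3 ^ d * (ca + 2 * cb) := by positivity
  have h8 : (w : ℝ) * 1 ≤ w * 3 ^ d := by gcongr
  refine ⟨N, μ, kk, l, r, Kn, Dn, hN, hM, hS, _, _, _,
    num8 hS hw hth hth1 (by omega) hc₁1 hα ca cb hca hcb ?_ ?_ ?_ hq⟩
  · nlinarith
  · nlinarith
  · nlinarith

end Pool.Agent.ACX.H34
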