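import Pool.Agent.AND2B.Top

/-!
# ACX, row P8: the numbers of the scales for the protocol with a functional
-/

set_option autoImplicit false

open Finset

open scoped NNReal BigOperators

noncomputable section

namespace Pool.Agent.ACX.H34

open Pool.Agent.AND2B Pool.Agent.ANP
open Pool.Agent.BED (Tor)

/-! ### geometry -/

/-- the number of the sites near one bad block -/
theorem card_nbh {X : Type} [Fintype X] [DecidableEq X] {Γ : Geo X} {d : ℕ} (hG : GeoOk Γ d)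
    (hS : Scl Γ d) (n : ℕ) (hn : 1 ≤ n) (B : X) :
    (Γ.nbh (Γ.enl (n - 1) {B} 2) (Γ.ρ n)).card ≤ (3 * Γ.ρ n) ^ d := by
  obtain ⟨m, rfl⟩ : ∃ m, n = m + 1 := ⟨n - 1, by omega⟩
  rw [Nat.add_sub_cancel]
  have h1 := hS.rho m
  have h2 := hS.one m
  have h3 : Γ.nbh (Γ.enl m {B} 2) (Γ.ρ (m + 1)) ⊆
      ({y | Γ.D B y ≤ Γ.ρ (m + 1) + 3 * Γ.L m} : Finset X) := by
    intro x hx
    rw [Geo.nbh, mem_filter] at hx
    obtain ⟨-, y, hy, hxy⟩ := hx
    rw [Geo.enl, mem_filter] at hy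
    obtain ⟨-, z, hz, hyz⟩ := hy
    rw [mem_singleton] at hz
    rw [mem_filter]
    refine ⟨mem_univ _, ?_⟩
    have h4 : Γ.bl m z = Γ.bl m B := by
      rw [← hz, hG.idem]
    have h5 := hG.diam m z B h4
    have h6 := hG.tri B z x
    have h7 := hG.tri z y x
    rw [hG.comm B z] at h6
    rw [hG.comm z y, hG.comm y x] at h7
    omega
  refine (card_le_card h3).trans ((hG.vol _ _).trans ?_)
  exact Nat.pow_le_pow_left (by omega) d

/-- the level above the last one -/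
theorem qq_top {X : Type} [Fintype X] [DecidableEq X] (ch : ℕ → X → Finset X) (J : ℕ)
    (x : ℕ × X → ℝ) (h0 : ∀ c, 0 ≤ x c) (n : ℕ) (B : X) (q : ℝ)
    (hx : x (n + 1, B) = 0) (hq : ∀ b, H72.QQ ch J x n b ≤ q) (hq1 : (Fintype.card X : ℝ) * q ≤ 1) :
    H72.QQ ch J x (n + 1) B ≤ (Fintype.card X : ℝ) * q := by
  rw [H72.qq_succ, hx, zero_add]
  have hqn : 0 ≤ q := (H72.qq_nonneg h0 n B).trans (hq B)
  have h1 : ((ch n B).card : ℝ) ≤ Fintype.card X := by exact_mod_cast card_le_univ _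
  calc ∑ S ∈ (ch n B).powersetCard (J + 1), ∏ b ∈ S, H72.QQ ch J x n b ≤
      ∑ S ∈ (ch n B).powersetCard (J + 1), q ^ (J + 1) := by
        refine Finset.sum_le_sum fun S hS => ?_
        rw [← (Finset.mem_powersetCard.1 hS).2, ← Finset.prod_const]
        exact Finset.prod_le_prod (fun b _ => H72.qq_nonneg h0 n b) fun b _ => hq b
    _ = ((ch n B).card.choose (J + 1) : ℝ) * q ^ (J + 1) := by
        rw [Finset.sum_const, Finset.card_powersetCard, nsmul_eq_mul]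
    _ ≤ ((Fintype.card X : ℝ)) ^ (J + 1) * q ^ (J + 1) := by
        gcongr
        have h2 : (ch n B).card.choose (J + 1) ≤ (Fintype.card X) ^ (J + 1) :=
          (Nat.choose_le_pow _ _).trans (Nat.pow_le_pow_left (card_le_univ _) _)
        exact_mod_cast h2
    _ = ((Fintype.card X : ℝ) * q) ^ (J + 1) := by rw [mul_pow]
    _ ≤ (Fintype.card X : ℝ) * q := by
        rw [pow_succ]
        have h3 : ((Fintype.card X : ℝ) * q) ^ J ≤ 1 := pow_le_one₀ (by positivity) hq1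
        have h4 : 0 ≤ (Fintype.card X : ℝ) * q := by positivity
        nlinarith

/-! ### the numbers -/

/-- the exponent of the probabilities which is needed -/
def A0 (d : ℕ) (C₁ : ℝ) (α : ℕ) : ℕ :=
  4 * d * (α + 1) + 3 + 2 * (⌈|C₁|⌉₊ * (α + 1) * (α + 1) * d)

/-- the coins -/
def pic (w th : ℝ≥0) (kk : ℕ → ℕ) (β : ℝ) (N : ℕ) (l : ℕ → ℕ) (d n : ℕ) : ℝ :=
  2 * pf w th kk β N n * ((kk (n + 1) : ℝ) - kk n + ((2 ^ l n : ℕ) : ℝ) ^ d)

/-- the cost of one site -/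
def cst (w th : ℝ≥0) (kk : ℕ → ℕ) (d μ : ℕ) (Cc : ℝ) (n : ℕ) : ℝ :=
  Cc / (((2 : ℝ) ^ μ) ^ d * Real.sqrt (sg w th kk n))

/-- the weight of one bad block -/
def wgt (w th : ℝ≥0) (kk : ℕ → ℕ) (d μ : ℕ) (Cc : ℝ) (N : ℕ) (r : ℕ → ℕ) (j : ℕ) : ℝ :=
  if j + 1 < N then ((3 * 2 ^ r (j + 1) : ℕ) : ℝ) ^ d * cst w th kk d μ Cc (j + 1) else 1

section num

variable {d J : ℕ} {th : ℝ≥0} {c₁ C₁ β : ℝ} {α : ℕ} {w : ℝ≥0} {t : ℝ} {N μ : ℕ}
  {kk l r Kn Dn : ℕ → ℕ} (hS : Scal d th c₁ C₁ α J β w t N μ kk l r Kn Dn)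
  (hw : 0 < w) (hth : 0 < th) (hth1 : th < 1)

include hw hth in
theorem cl_pos (k : ℕ) : 0 < cl w th k := by
  unfold cl
  positivity

include hw hth in
theorem s_pos (n : ℕ) : 0 < sg w th kk n := by
  unfold sg
  exact_mod_cast cl_pos hw hth (kk n)

include hth1 in
theorem cl_anti {i j : ℕ} (h : i ≤ j) : cl w th j ≤ cl w th i := by
  unfold cl
  gcongr w * ?_
  exact pow_le_pow_of_le_one (zero_le) hth1.le h

include hS hth1 in
theorem s_anti {i j : ℕ} (h : i ≤ j) : sg w th kk j ≤ sg w th kk i := by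
  unfold sg
  exact_mod_cast cl_anti hth1 ((strictMono_nat_of_lt_succ hS.km).monotone h)

include hS hth1 in
theorem s_le (n : ℕ) : sg w th kk n ≤ w := by
  have h1 := s_anti hS hth1 (Nat.zero_le n)
  have h2 : sg w th kk 0 = w := by
    unfold sg cl
    rw [hS.k0, pow_zero, mul_one]
  rwa [h2] at h1

variable (hw1 : 2 * 3 ^ d * (w : ℝ) ≤ 1) (hw64 : (w : ℝ) ≤ 1 / 64) (hα : 4 * d + 4 ≤ α)

include hw64 in
theorem w_lt : (w : ℝ) ≤ 1 := hw64.trans (by norm_num)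

include hS hth1 hw64 in
theorem s_le1 (n : ℕ) : sg w th kk n ≤ 1 := (s_le hS hth1 n).trans (w_lt hw64)

include hS hw hth hth1 hw64 hα in
theorem s_sq (n : ℕ) (hn : n ≤ N) : sg w th kk (n + 1) ≤ sg w th kk n ^ 2 :=
  (hS.up n hn).trans (pow_le_pow_of_le_one (s_pos hw hth n).le (s_le1 hS hth1 hw64 n) (by omega))

include hS hw hth hth1 hw64 hα in
theorem s_w (n : ℕ) (hn : n ≤ N + 1) : sg w th kk n ≤ (w : ℝ) ^ (n + 1) := by
  induction n with
  | zero => simpa using s_le hS hth1 0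
  | succ n ih =>
    have h1 := ih (by omega)
    have h2 := s_sq hS hw hth hth1 hw64 hα n (by omega)
    have h3 := s_pos (kk := kk) hw hth n
    have h4 := s_le hS hth1 n
    calc sg w th kk (n + 1) ≤ sg w th kk n ^ 2 := h2
      _ = sg w th kk n * sg w th kk n := sq _
      _ ≤ (w : ℝ) ^ (n + 1) * w := mul_le_mul h1 h4 h3.le (by positivity)
      _ = (w : ℝ) ^ (n + 1 + 1) := (pow_succ _ _).symm

include hS hw hth hth1 hw64 hα in
/-- the last clock is small -/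
theorem f_le (n : ℕ) (hn : n ≤ N) : sg w th kk (N + 1) ≤ sg w th kk n / 4 := by
  have h1 := s_anti hS hth1 (show n + 1 ≤ N + 1 by omega)
  have h2 := s_sq hS hw hth hth1 hw64 hα n hn
  have h3 := s_pos (kk := kk) hw hth n
  have h4 := (s_le hS hth1 n).trans hw64
  nlinarith

include hS hw hth hth1 hw1 hw64 hα in
/-- dens -/
theorem dens (hc₁ : c₁ ≤ 1) (n : ℕ) (hn1 : 1 ≤ n) (hn : n < N) :
    2 * sg w th kk (N + 1) * ((3 ^ d * J * (6 * 2 ^ l (n - 1) + 1) ^ d : ℝ) *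
      (2 * 2 ^ r n + 1) ^ d) ≤ sg w th kk (n + 1) := by
  set x := sg w th kk (n + 1) with hx
  have hx0 : 0 < x := s_pos hw hth (n + 1)
  have hx1 : x ≤ 1 := s_le1 hS hth1 hw64 (n + 1)
  have hxw : x ≤ w := s_le hS hth1 (n + 1)
  have hf : sg w th kk (N + 1) ≤ x ^ (α - 1) :=
    (s_anti hS hth1 (show n + 1 + 1 ≤ N + 1 by omega)).trans (hS.up (n + 1) (by omega))
  have h1 : (3 ^ d * J * (6 * 2 ^ l (n - 1) + 1) ^ d : ℝ) ≤ x⁻¹ := by
    refine (hS.clu n hn1 (by omega)).trans ?_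
    rw [← Real.rpow_neg_one]
    exact Real.rpow_le_rpow_of_exponent_ge hx0 hx1 (by linarith)
  have h2 : (2 ^ r n : ℝ) ≤ (x ^ 4)⁻¹ := by
    refine (hS.rup n (by omega)).trans (le_of_eq ?_)
    rw [Real.rpow_neg hx0.le]
    norm_cast
  have h3 : (1 : ℝ) ≤ 2 ^ r n := one_le_pow₀ (by norm_num)
  have h4 : (2 * 2 ^ r n + 1 : ℝ) ^ d ≤ (3 * (x ^ 4)⁻¹) ^ d :=
    pow_le_pow_left₀ (by positivity) (by linarith) d
  have h5 : x ^ (α - 1) ≤ x ^ (4 * d + 3) :=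
    pow_le_pow_of_le_one hx0.le hx1 (by omega)
  have h6 : 0 ≤ sg w th kk (N + 1) := (s_pos hw hth _).le
  calc 2 * sg w th kk (N + 1) * ((3 ^ d * J * (6 * 2 ^ l (n - 1) + 1) ^ d : ℝ) *
      (2 * 2 ^ r n + 1) ^ d) ≤ 2 * x ^ (4 * d + 3) * (x⁻¹ * (3 * (x ^ 4)⁻¹) ^ d) := by
        have h7 := hf.trans h5
        gcongr
    _ = 2 * 3 ^ d * x * x := by
        rw [mul_pow, inv_pow, ← pow_mul]
        have : x ^ (4 * d + 3) = x ^ (4 * d) * x ^ 3 := pow_add _ _ _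
        rw [this]
        field_simp
    _ ≤ 1 * x := by
        have h8 : 2 * 3 ^ d * x ≤ 2 * 3 ^ d * (w : ℝ) := by gcongr
        have h9 := h8.trans hw1
        exact mul_le_mul_of_nonneg_right h9 hx0.le
    _ = x := one_mul x

include hS hw hth hth1 hw64 in
/-- the number of the sites of the torus -/
theorem card_s : ((2 : ℝ) ^ μ) ^ d * sg w th kk (N + 1) ^ (⌈|C₁|⌉₊ * (α + 1) * d) ≤ 1 := by
  set x := sg w th kk (N + 1) with hx
  have hx0 : 0 < x := s_pos hw hth (N + 1)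
  have hx1 : x ≤ 1 := s_le1 hS hth1 hw64 (N + 1)
  have h1 : (2 : ℝ) ^ μ ≤ (x ^ (⌈|C₁|⌉₊ * (α + 1)))⁻¹ := by
    refine hS.mU.trans ?_
    rw [← Real.rpow_natCast, ← Real.rpow_neg hx0.le]
    refine Real.rpow_le_rpow_of_exponent_ge hx0 hx1 ?_
    push_cast
    have h2 : C₁ ≤ ⌈|C₁|⌉₊ := (le_abs_self _).trans (Nat.le_ceil _)
    have h3 : (0 : ℝ) ≤ (α : ℝ) + 1 := by positivity
    nlinarith
  rw [pow_mul, ← mul_pow]
  refine pow_le_one₀ (by positivity) ?_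
  calc (2 : ℝ) ^ μ * x ^ (⌈|C₁|⌉₊ * (α + 1)) ≤
      (x ^ (⌈|C₁|⌉₊ * (α + 1)))⁻¹ * x ^ (⌈|C₁|⌉₊ * (α + 1)) := by gcongr
    _ = 1 := inv_mul_cancel₀ (by positivity)

theorem pic_nonneg (hkm : ∀ n, kk n < kk (n + 1)) (n : ℕ) : 0 ≤ pic w th kk β N l d n := by
  unfold pic
  have h1 : (kk n : ℝ) ≤ kk (n + 1) := by exact_mod_cast (hkm n).le
  have h2 : 0 ≤ pf w th kk β N n := by
    unfold pf
    split_ifs <;> positivity
  have h3 : (0 : ℝ) ≤ ((2 ^ l n : ℕ) : ℝ) ^ d := by positivity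
  have h4 : (0 : ℝ) ≤ (kk (n + 1) : ℝ) - kk n + ((2 ^ l n : ℕ) : ℝ) ^ d := by linarith
  positivity

theorem pic_zero (n : ℕ) (h : N < n) : pic w th kk β N l d n = 0 := by
  unfold pic pf
  rw [if_neg (by omega)]
  ring

/-- the coins are at most one -/
theorem pic_le (hS : Scal d th c₁ C₁ α J β w t N μ kk l r Kn Dn)
    (hw : 0 < w) (hth : 0 < th) (hth1 : th < 1) (hw64 : (w : ℝ) ≤ 1 / 64) (A : ℕ)
    (hq : ∀ n ≤ N, ∀ B, H72.QQ (Gt d μ J N l r).ch J
      (fun i => pic w th kk β N l d i.1) n B ≤ sg w th kk (n + 1) ^ A) (n : ℕ) :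
    pic w th kk β N l d n ≤ 1 := by
  rcases Nat.lt_or_ge N n with h | h
  · rw [pic_zero n h]
    exact zero_le_one
  · have h1 := hq n h 0
    have h2 : pic w th kk β N l d n ≤ H72.QQ (Gt d μ J N l r).ch J
        (fun i => pic w th kk β N l d i.1) n 0 := by
      cases n with
      | zero => exact le_rfl
      | succ n =>
        rw [H72.qq_succ]
        have h3 : 0 ≤ ∑ S ∈ ((Gt d μ J N l r).ch n 0).powersetCard (J + 1), ∏ b ∈ S,
            H72.QQ (Gt d μ J N l r).ch J (fun i => pic w th kk β N l d i.1) n b :=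
          Finset.sum_nonneg fun S _ => Finset.prod_nonneg fun b _ =>
            H72.qq_nonneg (fun c => pic_nonneg hS.km c.1) n b
        linarith
    exact h2.trans (h1.trans (pow_le_one₀ (s_pos hw hth _).le (s_le1 hS hth1 hw64 _)))

theorem cst_nonneg (Cc : ℝ) (hCc : 0 ≤ Cc) (n : ℕ) : 0 ≤ cst w th kk d μ Cc n := by
  unfold cst
  positivity

theorem wgt_nonneg (Cc : ℝ) (hCc : 0 ≤ Cc) (n : ℕ) : 0 ≤ wgt w th kk d μ Cc N r n := by
  unfold wgt
  split_ifs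
  · have := cst_nonneg (w := w) (th := th) (kk := kk) (d := d) (μ := μ) Cc hCc (n + 1)
    positivity
  · exact zero_le_one

include hS in
/-- wgt -/
theorem wgt_ok (Cc : ℝ) (hCc : 0 ≤ Cc) (n : ℕ) (hn1 : 1 ≤ n) (hn : n < N)
    (B : Fin d → ZMod (2 ^ μ)) :
    ((((Gt d μ J N l r).nbh ((Gt d μ J N l r).enl (n - 1) {B} 2) ((Gt d μ J N l r).ρ n)).card : ℕ) : ℝ)
      * cst w th kk d μ Cc n ≤ wgt w th kk d μ Cc N r (n - 1) := by
  have h1 := card_nbh (ANP.H61.trg d μ l _ hS.lm J N) hS.scl n hn1 B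
  unfold wgt
  rw [if_pos (by omega), show n - 1 + 1 = n by omega]
  refine mul_le_mul_of_nonneg_right ?_ (cst_nonneg Cc hCc n)
  exact_mod_cast h1

/-- one level of the sum -/
def trm (w th : ℝ≥0) (kk : ℕ → ℕ) (β : ℝ) (d μ J N : ℕ) (l r : ℕ → ℕ) (Cc : ℝ) (j : ℕ) : ℝ :=
  wgt w th kk d μ Cc N r j *
    ∑ B ∈ ({B | (Gt d μ J N l r).bl j B = B} : Finset (Fin d → ZMod (2 ^ μ))),
      H72.QQ (Gt d μ J N l r).ch J (fun i => pic w th kk β N l d i.1) j B

theorem card_tor : (Fintype.card (Fin d → ZMod (2 ^ μ)) : ℝ) = ((2 : ℝ) ^ μ) ^ d := by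
  rw [Fintype.card_fun, ZMod.card, Fintype.card_fin]
  push_cast
  rfl

theorem trm_le (Cc : ℝ) (hCc : 0 ≤ Cc) (j : ℕ) (q : ℝ) (hq0 : 0 ≤ q)
    (hq : ∀ B, H72.QQ (Gt d μ J N l r).ch J (fun i => pic w th kk β N l d i.1) j B ≤ q) :
    trm w th kk β d μ J N l r Cc j ≤ wgt w th kk d μ Cc N r j * (((2 : ℝ) ^ μ) ^ d * q) := by
  unfold trm
  refine mul_le_mul_of_nonneg_left ?_ (wgt_nonneg Cc hCc j)
  refine (Finset.sum_le_card_nsmul _ _ q fun B _ => hq B).trans ?_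
  rw [nsmul_eq_mul]
  refine mul_le_mul_of_nonneg_right ?_ hq0
  rw [← card_tor]
  exact_mod_cast card_le_univ _

include hS hw hth hth1 hw64 hα in
theorem trm_lo (Cc : ℝ) (hCc : 0 ≤ Cc) (A : ℕ) (hA : A0 d C₁ α ≤ A) (j : ℕ) (hj : j + 1 < N)
    (hq : ∀ B, H72.QQ (Gt d μ J N l r).ch J
      (fun i => pic w th kk β N l d i.1) j B ≤ sg w th kk (j + 1) ^ A) :
    trm w th kk β d μ J N l r Cc j ≤ 3 ^ d * Cc * w * (1 / 2) ^ (j + 2) := by
  have hx0 : 0 < sg w th kk (j + 1) := s_pos hw hth (j + 1)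
  have hx1 : sg w th kk (j + 1) ≤ 1 := s_le1 hS hth1 hw64 (j + 1)
  have hxw : sg w th kk (j + 1) ≤ w := s_le hS hth1 (j + 1)
  have hxw2 := s_w hS hw hth hth1 hw64 hα (j + 1) (by omega)
  refine (trm_le Cc hCc j _ (by positivity) hq).trans ?_
  unfold wgt cst
  rw [if_pos hj]
  set x := sg w th kk (j + 1) with hx
  -- the radius
  have h1 : (2 ^ r (j + 1) : ℝ) * x ^ (4 * (α + 1)) ≤ 1 := by
    have h2 := hS.rup (j + 1) (by omega)
    have h3 := hS.low (j + 1) (by omega)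
    have hy0 : 0 < sg w th kk (j + 1 + 1) := s_pos hw hth _
    have h4 : sg w th kk (j + 1 + 1) ^ (-(4 : ℝ)) = (sg w th kk (j + 1 + 1) ^ 4)⁻¹ := by
      rw [Real.rpow_neg hy0.le]
      norm_cast
    rw [h4] at h2
    calc (2 ^ r (j + 1) : ℝ) * x ^ (4 * (α + 1)) ≤
        (sg w th kk (j + 1 + 1) ^ 4)⁻¹ * x ^ (4 * (α + 1)) := by gcongr
      _ = (sg w th kk (j + 1 + 1) ^ 4)⁻¹ * (x ^ (α + 1)) ^ 4 := by
          rw [← pow_mul, mul_comm 4]
      _ ≤ (sg w th kk (j + 1 + 1) ^ 4)⁻¹ * (sg w th kk (j + 1 + 1)) ^ 4 := by gcongr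
      _ = 1 := inv_mul_cancel₀ (by positivity)
  have h1d : ((2 ^ r (j + 1) : ℝ)) ^ d * x ^ (4 * d * (α + 1)) ≤ 1 := by
    have h5 : x ^ (4 * d * (α + 1)) = (x ^ (4 * (α + 1))) ^ d := by
      rw [← pow_mul]
      congr 1
      ring
    rw [h5, ← mul_pow]
    exact pow_le_one₀ (by positivity) h1
  have hsq : x ≤ Real.sqrt x := by
    refine Real.le_sqrt_of_sq_le ?_
    nlinarith
  have hM : (0 : ℝ) < ((2 : ℝ) ^ μ) ^ d := by positivity
  have hsx : 0 < Real.sqrt x := Real.sqrt_pos.2 hx0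
  have hA1 : x ^ A ≤ x ^ (4 * d * (α + 1)) * x ^ 3 := by
    rw [← pow_add]
    refine pow_le_pow_of_le_one hx0.le hx1 ?_
    unfold A0 at hA
    omega
  calc ((3 * 2 ^ r (j + 1) : ℕ) : ℝ) ^ d * (Cc / (((2 : ℝ) ^ μ) ^ d * Real.sqrt x)) *
        (((2 : ℝ) ^ μ) ^ d * x ^ A)
      = 3 ^ d * Cc * (2 ^ r (j + 1) : ℝ) ^ d * x ^ A / Real.sqrt x := by
        push_cast
        rw [mul_pow]
        field_simp
    _ ≤ 3 ^ d * Cc * (2 ^ r (j + 1) : ℝ) ^ d * (x ^ (4 * d * (α + 1)) * x ^ 3) / x := by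
        gcongr
    _ = 3 ^ d * Cc * ((2 ^ r (j + 1) : ℝ) ^ d * x ^ (4 * d * (α + 1))) * (x * x) := by
        field_simp
    _ ≤ 3 ^ d * Cc * 1 * (w * (1 / 2) ^ (j + 2)) := by
        have h6 : x * x ≤ w * (1 / 2) ^ (j + 2) := by
          refine mul_le_mul hxw (hxw2.trans ?_) hx0.le (by positivity)
          exact pow_le_pow_left₀ (by positivity) (hw64.trans (by norm_num)) _
        gcongr
    _ = 3 ^ d * Cc * w * (1 / 2) ^ (j + 2) := by ring

include hS hw hth hth1 hw64 in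
theorem trm_hi (Cc : ℝ) (hCc : 0 ≤ Cc) (A : ℕ) (hA : A0 d C₁ α ≤ A) (j : ℕ) (hj : N ≤ j + 1)
    (hj2 : j < N + 2)
    (hq : ∀ n ≤ N, ∀ B, H72.QQ (Gt d μ J N l r).ch J
      (fun i => pic w th kk β N l d i.1) n B ≤ sg w th kk (n + 1) ^ A) :
    trm w th kk β d μ J N l r Cc j ≤ 1 / 64 := by
  have hcard := card_s hS hw hth hth1 hw64
  obtain ⟨m, hm⟩ : ∃ m, m = ⌈|C₁|⌉₊ * (α + 1) * d := ⟨_, rfl⟩
  rw [← hm] at hcard
  have hmA : (α + 1) * m + 1 ≤ A ∧ 2 * m + 1 ≤ A := by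
    have h1 : ⌈|C₁|⌉₊ * (α + 1) * (α + 1) * d = (α + 1) * m := by
      rw [hm]
      ring
    have h2 : m ≤ (α + 1) * m := Nat.le_mul_of_pos_left _ (by omega)
    unfold A0 at hA
    rw [h1] at hA
    have h3 : 0 ≤ 4 * d * (α + 1) := Nat.zero_le _
    constructor
    · omega
    · omega
  have hz0 : 0 < sg w th kk (N + 1) := s_pos hw hth (N + 1)
  have hz1 : sg w th kk (N + 1) ≤ 1 := s_le1 hS hth1 hw64 (N + 1)
  have hzw : sg w th kk (N + 1) ≤ w := s_le hS hth1 (N + 1)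
  have hM : (0 : ℝ) < ((2 : ℝ) ^ μ) ^ d := by positivity
  have hwt : wgt w th kk d μ Cc N r j = 1 := by
    unfold wgt
    rw [if_neg (by omega)]
  rcases (show j + 1 = N ∨ j = N ∨ j = N + 1 by omega) with h | h | h
  · -- level `N - 1`
    have hy0 : 0 < sg w th kk N := s_pos hw hth N
    have hy1 : sg w th kk N ≤ 1 := s_le1 hS hth1 hw64 N
    have hyw : sg w th kk N ≤ w := s_le hS hth1 N
    have h1 := hq j (by omega)
    rw [h] at h1
    refine (trm_le Cc hCc j _ (by positivity) h1).trans ?_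
    rw [hwt, one_mul]
    have h2 := hS.low N le_rfl
    calc ((2 : ℝ) ^ μ) ^ d * sg w th kk N ^ A ≤
        ((2 : ℝ) ^ μ) ^ d * sg w th kk N ^ ((α + 1) * m + 1) := by
          refine mul_le_mul_of_nonneg_left ?_ hM.le
          exact pow_le_pow_of_le_one hy0.le hy1 hmA.1
      _ = ((2 : ℝ) ^ μ) ^ d * (sg w th kk N ^ (α + 1)) ^ m * sg w th kk N := by
          rw [pow_succ, pow_mul]
          ring
      _ ≤ ((2 : ℝ) ^ μ) ^ d * (sg w th kk (N + 1)) ^ m * sg w th kk N := by gcongr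
      _ ≤ 1 * sg w th kk N := by gcongr
      _ ≤ 1 / 64 := by linarith
  · subst h
    refine (trm_le Cc hCc j _ (by positivity) (hq j le_rfl)).trans ?_
    rw [hwt, one_mul]
    calc ((2 : ℝ) ^ μ) ^ d * sg w th kk (j + 1) ^ A ≤
        ((2 : ℝ) ^ μ) ^ d * sg w th kk (j + 1) ^ (m + 1) := by
          refine mul_le_mul_of_nonneg_left ?_ hM.le
          exact pow_le_pow_of_le_one hz0.le hz1 (by omega)
      _ = ((2 : ℝ) ^ μ) ^ d * sg w th kk (j + 1) ^ m * sg w th kk (j + 1) := by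
          rw [pow_succ]
          ring
      _ ≤ 1 * sg w th kk (j + 1) := by gcongr
      _ ≤ 1 / 64 := by linarith
  · subst h
    have hMs : ((2 : ℝ) ^ μ) ^ d * sg w th kk (N + 1) ^ A ≤ sg w th kk (N + 1) ^ (m + 1) := by
      calc ((2 : ℝ) ^ μ) ^ d * sg w th kk (N + 1) ^ A ≤
          ((2 : ℝ) ^ μ) ^ d * sg w th kk (N + 1) ^ (m + (m + 1)) := by
            refine mul_le_mul_of_nonneg_left ?_ hM.le
            exact pow_le_pow_of_le_one hz0.le hz1 (by omega)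
        _ = ((2 : ℝ) ^ μ) ^ d * sg w th kk (N + 1) ^ m * sg w th kk (N + 1) ^ (m + 1) := by
            rw [pow_add]
            ring
        _ ≤ 1 * sg w th kk (N + 1) ^ (m + 1) := by gcongr
        _ = sg w th kk (N + 1) ^ (m + 1) := one_mul _
    have hqt : ∀ B, H72.QQ (Gt d μ J N l r).ch J (fun i => pic w th kk β N l d i.1) (N + 1) B ≤
        sg w th kk (N + 1) ^ (m + 1) := by
      intro B
      have h3 := qq_top (Gt d μ J N l r).ch J (fun i => pic w th kk β N l d i.1)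
        (fun c => pic_nonneg hS.km c.1) N B (sg w th kk (N + 1) ^ A)
        (pic_zero (N + 1) (Nat.lt_succ_self N)) (hq N le_rfl)
        (by
          rw [card_tor]
          exact hMs.trans (pow_le_one₀ hz0.le hz1))
      rw [card_tor] at h3
      exact h3.trans hMs
    refine (trm_le Cc hCc (N + 1) _ (by positivity) hqt).trans ?_
    rw [hwt, one_mul]
    calc ((2 : ℝ) ^ μ) ^ d * sg w th kk (N + 1) ^ (m + 1) =
        ((2 : ℝ) ^ μ) ^ d * sg w th kk (N + 1) ^ m * sg w th kk (N + 1) := by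
          rw [pow_succ]
          ring
      _ ≤ 1 * sg w th kk (N + 1) := by gcongr
      _ ≤ 1 / 64 := by linarith

include hS hw hth hth1 hw64 hα in
/-- THE SUM -/
theorem sum_le (Cc : ℝ) (hCc : 0 ≤ Cc) (hCw : 3 ^ d * Cc * (w : ℝ) ≤ 1 / 32) (A : ℕ)
    (hA : A0 d C₁ α ≤ A)
    (hq : ∀ n ≤ N, ∀ B, H72.QQ (Gt d μ J N l r).ch J
      (fun i => pic w th kk β N l d i.1) n B ≤ sg w th kk (n + 1) ^ A) :
    ∑ j ∈ range (N + 2), wgt w th kk d μ Cc N r j *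
      ∑ B ∈ ({B | (Gt d μ J N l r).bl j B = B} : Finset (Fin d → ZMod (2 ^ μ))),
        H72.QQ (Gt d μ J N l r).ch J (fun i => pic w th kk β N l d i.1) j B ≤ 1 / 16 := by
  have h1 : ∀ j ∈ range (N + 2), trm w th kk β d μ J N l r Cc j ≤
      3 ^ d * Cc * w * (1 / 2) ^ (j + 2) + (if N ≤ j + 1 then 1 / 64 else 0) := by
    intro j hj
    rw [mem_range] at hj
    by_cases h : N ≤ j + 1
    · rw [if_pos h]
      have h2 := trm_hi hS hw hth hth1 hw64 Cc hCc A hA j h hj hq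
      have h3 : 0 ≤ 3 ^ d * Cc * (w : ℝ) * (1 / 2) ^ (j + 2) := by positivity
      linarith
    · rw [if_neg h, add_zero]
      exact trm_lo hS hw hth hth1 hw64 hα Cc hCc A hA j (by omega) (hq j (by omega))
  refine (Finset.sum_le_sum h1).trans ?_
  rw [Finset.sum_add_distrib, ← Finset.mul_sum]
  have h2 : ∑ j ∈ range (N + 2), ((1 : ℝ) / 2) ^ (j + 2) ≤ 1 / 2 := by
    have h3 : ∀ n : ℕ, ∑ j ∈ range n, ((1 : ℝ) / 2) ^ (j + 2) = 1 / 2 - (1 / 2) ^ (n + 1) := by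
      intro n
      induction n with
      | zero => norm_num
      | succ n ih =>
        rw [Finset.sum_range_succ, ih]
        ring
    rw [h3]
    have : (0 : ℝ) < (1 / 2) ^ (N + 2 + 1) := by positivity
    linarith
  have h4 : ∑ j ∈ range (N + 2), (if N ≤ j + 1 then (1 : ℝ) / 64 else 0) ≤ 3 / 64 := by
    rw [← Finset.sum_filter, Finset.sum_const, nsmul_eq_mul]
    have h5 : ((range (N + 2)).filter (fun j => N ≤ j + 1)).card ≤ 3 := by
      have h6 : (range (N + 2)).filter (fun j => N ≤ j + 1) ⊆ {N - 1, N, N + 1} := by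
        intro j hj
        rw [mem_filter, mem_range] at hj
        simp only [mem_insert, mem_singleton]
        omega
      exact (card_le_card h6).trans (Finset.card_le_three)
    have h7 : (((range (N + 2)).filter (fun j => N ≤ j + 1)).card : ℝ) ≤ 3 := by exact_mod_cast h5
    linarith
  have h8 : 3 ^ d * Cc * (w : ℝ) * ∑ j ∈ range (N + 2), ((1 : ℝ) / 2) ^ (j + 2) ≤
      1 / 32 * (1 / 2) := by
    refine mul_le_mul hCw h2 (by positivity) (by norm_num)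
  linarith

end num

end Pool.Agent.ACX.H34
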